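import Pool.Agent.Lib.MP_c7af3c_ag.ELL.Iface

/-!
# MP_c7af3c_ag, project ELL: properness of the curve (module PROP)
-/

set_option autoImplicit false

namespace Pool.Agent.Ell.H21

open AlgebraicGeometry CategoryTheory CategoryTheory.Limits Pool.Agent.Ell

section swap

variable {k : Type} [Field k] {A : Type} [CommRing A]

/-- the extension to the localization -/
noncomputable def ex (ψ : B k →+* A) (h : IsUnit (ψ (bx k))) : Bx k →+* A :=
  IsLocalization.Away.lift (bx k) h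

theorem ex_comp (ψ : B k →+* A) (h : IsUnit (ψ (bx k))) :
    (ex ψ h).comp (algebraMap (B k) (Bx k)) = ψ :=
  RingHom.ext fun b => IsLocalization.Away.lift_eq (bx k) h b

/-- the homomorphism in the other chart -/
noncomputable def sw (ψ : B k →+* A) (h : IsUnit (ψ (bx k))) : B k →+* A :=
  (ex ψ h).comp (sg k : B k →+* Bx k)

theorem sw_bx (ψ : B k →+* A) (h : IsUnit (ψ (bx k))) : ψ (bx k) * sw ψ h (bx k) = -1 := by
  have h1 : sw ψ h (bx k) = - ex ψ h (ux k) := by
    change ex ψ h (sg k (bx k)) = _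
    unfold sg
    rw [bHom_bx, map_neg]
  have h2 : ψ (bx k) = ex ψ h (algebraMap (B k) (Bx k) (bx k)) :=
    (RingHom.congr_fun (ex_comp ψ h) (bx k)).symm
  rw [h1, mul_neg, h2, ← map_mul, x_ux, map_one]

theorem swap0 (ψ : B k →+* A) (h : IsUnit (ψ (bx k))) :
    Spec.map (CommRingCat.ofHom ψ) ≫ j0 k = Spec.map (CommRingCat.ofHom (sw ψ h)) ≫ j1 k := by
  have h1 : Spec.map (CommRingCat.ofHom ψ) = Spec.map (CommRingCat.ofHom (ex ψ h)) ≫ jj k := by
    unfold jj
    rw [← Spec.map_comp, ← CommRingCat.ofHom_comp, ex_comp]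
  have h2 : Spec.map (CommRingCat.ofHom (sw ψ h)) =
      Spec.map (CommRingCat.ofHom (ex ψ h)) ≫ jt k := by
    unfold jt sw
    rw [← Spec.map_comp, ← CommRingCat.ofHom_comp]
  rw [h1, h2, Category.assoc, Category.assoc, glue]

theorem swap1 (ψ : B k →+* A) (h : IsUnit (ψ (bx k))) :
    Spec.map (CommRingCat.ofHom ψ) ≫ j1 k = Spec.map (CommRingCat.ofHom (sw ψ h)) ≫ j0 k := by
  have h1 : Spec.map (CommRingCat.ofHom ψ) = Spec.map (CommRingCat.ofHom (ex ψ h)) ≫ jj k := by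
    unfold jj
    rw [← Spec.map_comp, ← CommRingCat.ofHom_comp, ex_comp]
  have h2 : Spec.map (CommRingCat.ofHom (sw ψ h)) =
      Spec.map (CommRingCat.ofHom (ex ψ h)) ≫ jt k := by
    unfold jt sw
    rw [← Spec.map_comp, ← CommRingCat.ofHom_comp]
  rw [h1, h2, Category.assoc, Category.assoc, glue']

end swap

section lifts

variable {k : Type} [Field k] {R : Type} [CommRing R] [IsLocalRing R]

theorem lift_chart (j : Cv k ⟶ El k) [IsOpenImmersion j] (l : Spec (CommRingCat.of R) ⟶ El k)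
    (y : Cv k) (hy : j y = l (IsLocalRing.closedPoint R)) :
    ∃ χ : B k →+* R, l = Spec.map (CommRingCat.ofHom χ) ≫ j := by
  have hr : Set.range l ⊆ Set.range j := by
    rintro _ ⟨p, rfl⟩
    exact ((IsLocalRing.specializes_closedPoint p).map l.continuous).mem_open
      j.isOpenEmbedding.isOpen_range ⟨y, hy⟩
  refine ⟨(Spec.preimage (IsOpenImmersion.lift j l hr)).hom, ?_⟩
  rw [CommRingCat.ofHom_hom, Spec.map_preimage, IsOpenImmersion.lift_fac]

theorem local_lift (l : Spec (CommRingCat.of R) ⟶ El k) :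
    ∃ χ : B k →+* R, l = Spec.map (CommRingCat.ofHom χ) ≫ j0 k ∨
      l = Spec.map (CommRingCat.ofHom χ) ≫ j1 k := by
  rcases j_surj k (l (IsLocalRing.closedPoint R)) with ⟨y, hy⟩ | ⟨y, hy⟩
  · obtain ⟨χ, h⟩ := lift_chart (j0 k) l y hy
    exact ⟨χ, Or.inl h⟩
  · obtain ⟨χ, h⟩ := lift_chart (j1 k) l y hy
    exact ⟨χ, Or.inr h⟩

end lifts

section crit

variable {k : Type} [Field k] {R K : Type} [CommRing R] [IsDomain R] [ValuationRing R]
  [Field K] [Algebra R K] [IsFractionRing R K]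

theorem ofHom_comp_eq {A B' C : Type} [CommRing A] [CommRing B'] [CommRing C] {f : A →+* B'}
    {g : B' →+* C} : Spec.map (CommRingCat.ofHom g) ≫ Spec.map (CommRingCat.ofHom f) =
      Spec.map (CommRingCat.ofHom (g.comp f)) := by
  rw [← Spec.map_comp, ← CommRingCat.ofHom_comp]

theorem ofHom_inj {A B' : Type} [CommRing A] [CommRing B'] {f g : A →+* B'}
    (h : Spec.map (CommRingCat.ofHom f) = Spec.map (CommRingCat.ofHom g)) : f = g := by
  have h1 := Spec.map_injective h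
  exact congrArg CommRingCat.Hom.hom h1

/-- a `K`-point with integral `x` coordinate lifts -/
theorem exists_lift (j : Cv k ⟶ El k) (hj : j ≫ sE k = sC k)
    (i₁ : Spec (CommRingCat.of K) ⟶ El k) (i₂ : Spec (CommRingCat.of R) ⟶ Spec (CommRingCat.of k))
    (w : i₁ ≫ sE k = Spec.map (CommRingCat.ofHom (algebraMap R K)) ≫ i₂)
    (ψ : B k →+* K) (hψ : i₁ = Spec.map (CommRingCat.ofHom ψ) ≫ j)
    (a : R) (ha : algebraMap R K a = ψ (bx k)) :
    ∃ l : Spec (CommRingCat.of R) ⟶ El k,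
      Spec.map (CommRingCat.ofHom (algebraMap R K)) ≫ l = i₁ ∧ l ≫ sE k = i₂ := by
  obtain ⟨φ, hφ⟩ : ∃ φ : k →+* R, i₂ = Spec.map (CommRingCat.ofHom φ) :=
    ⟨(Spec.preimage i₂).hom, by rw [CommRingCat.ofHom_hom, Spec.map_preimage]⟩
  letI : Algebra k R := φ.toAlgebra
  have hon : (ψ (by' k)) ^ 2 = (ψ (bx k)) ^ 3 - ψ (bx k) := by
    rw [← map_pow, ← map_pow, ← map_sub]
    exact congrArg ψ (onC_b k)
  obtain ⟨b, hb⟩ : ∃ b : R, algebraMap R K b = ψ (by' k) := by
    refine IsIntegrallyClosed.exists_algebraMap_eq_of_isIntegral_pow (n := 2) two_pos ?_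
    rw [hon, ← ha, ← map_pow, ← map_sub]
    exact isIntegral_algebraMap
  have hinj := IsFractionRing.injective R K
  have hab : OnC a b := by
    apply hinj
    rw [map_pow, map_sub, map_pow, ha, hb, hon]
  set ψ0 : B k →ₐ[k] R := bHom a b hab with hψ0
  have hw : ψ.comp (algebraMap k (B k)) = (algebraMap R K).comp φ := by
    apply ofHom_inj
    rw [← ofHom_comp_eq, ← ofHom_comp_eq, ← hφ, ← w, hψ, Category.assoc, hj]
    rfl
  letI : Algebra k K := ((algebraMap R K).comp φ).toAlgebra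
  have hK : (algebraMap R K).comp (ψ0 : B k →+* R) = ψ := by
    let ψa : B k →ₐ[k] K := { ψ with commutes' := fun r => RingHom.congr_fun hw r }
    let ψb : B k →ₐ[k] K := { (algebraMap R K).comp (ψ0 : B k →+* R) with
      commutes' := fun r => by
        change algebraMap R K (ψ0 (algebraMap k (B k) r)) = algebraMap R K (φ r)
        rw [ψ0.commutes]
        rfl }
    have h1 : ψb = ψa := by
      refine bHom_ext ?_ ?_
      · change algebraMap R K (ψ0 (bx k)) = ψ (bx k)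
        rw [hψ0, bHom_bx, ha]
      · change algebraMap R K (ψ0 (by' k)) = ψ (by' k)
        rw [hψ0, bHom_by, hb]
    exact congrArg (fun f : B k →ₐ[k] K => (f : B k →+* K)) h1
  refine ⟨Spec.map (CommRingCat.ofHom (ψ0 : B k →+* R)) ≫ j, ?_, ?_⟩
  · rw [← Category.assoc, ofHom_comp_eq, hK, hψ]
  · rw [Category.assoc, hj, hφ]
    unfold sC
    rw [ofHom_comp_eq]
    congr 2
    exact RingHom.ext fun r => ψ0.commutes r

theorem exists_lift' (j j' : Cv k ⟶ El k) (hj : j ≫ sE k = sC k) (hj' : j' ≫ sE k = sC k)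
    (hs : ∀ (ψ : B k →+* K) (h : IsUnit (ψ (bx k))), Spec.map (CommRingCat.ofHom ψ) ≫ j =
      Spec.map (CommRingCat.ofHom (sw ψ h)) ≫ j')
    (i₁ : Spec (CommRingCat.of K) ⟶ El k) (i₂ : Spec (CommRingCat.of R) ⟶ Spec (CommRingCat.of k))
    (w : i₁ ≫ sE k = Spec.map (CommRingCat.ofHom (algebraMap R K)) ≫ i₂)
    (ψ : B k →+* K) (hψ : i₁ = Spec.map (CommRingCat.ofHom ψ) ≫ j) :
    ∃ l : Spec (CommRingCat.of R) ⟶ El k,
      Spec.map (CommRingCat.ofHom (algebraMap R K)) ≫ l = i₁ ∧ l ≫ sE k = i₂ := by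
  by_cases h0 : ∃ a : R, algebraMap R K a = ψ (bx k)
  · obtain ⟨a, ha⟩ := h0
    exact exists_lift j hj i₁ i₂ w ψ hψ a ha
  · have hne : ψ (bx k) ≠ 0 := fun h => h0 ⟨0, by rw [map_zero, h]⟩
    have hu : IsUnit (ψ (bx k)) := isUnit_iff_ne_zero.2 hne
    rcases ValuationRing.isInteger_or_isInteger R (ψ (bx k)) with ⟨a, ha⟩ | ⟨a, ha⟩
    · exact absurd ⟨a, ha⟩ h0
    · refine exists_lift j' hj' i₁ i₂ w (sw ψ hu) (by rw [hψ, hs ψ hu]) (-a) ?_
      have h1 := sw_bx ψ hu
      rw [map_neg, ha]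
      have h2 : sw ψ hu (bx k) = (ψ (bx k))⁻¹ * (ψ (bx k) * sw ψ hu (bx k)) := by
        rw [← mul_assoc, inv_mul_cancel₀ hne, one_mul]
      rw [h2, h1]
      ring

theorem same_chart (j : Cv k ⟶ El k) [IsOpenImmersion j] (χ χ' : B k →+* R)
    (h : Spec.map (CommRingCat.ofHom (algebraMap R K)) ≫ Spec.map (CommRingCat.ofHom χ) ≫ j =
      Spec.map (CommRingCat.ofHom (algebraMap R K)) ≫ Spec.map (CommRingCat.ofHom χ') ≫ j) :
    χ = χ' := by
  rw [← Category.assoc, ← Category.assoc, cancel_mono, ofHom_comp_eq, ofHom_comp_eq] at h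
  have h1 := ofHom_inj h
  exact RingHom.ext fun b => IsFractionRing.injective R K (RingHom.congr_fun h1 b)

theorem diff_chart (χ χ' : B k →+* R)
    (h : Spec.map (CommRingCat.ofHom (algebraMap R K)) ≫ Spec.map (CommRingCat.ofHom χ) ≫ j0 k =
      Spec.map (CommRingCat.ofHom (algebraMap R K)) ≫ Spec.map (CommRingCat.ofHom χ') ≫ j1 k) :
    Spec.map (CommRingCat.ofHom χ) ≫ j0 k = Spec.map (CommRingCat.ofHom χ') ≫ j1 k := by
  have hinj := IsFractionRing.injective R K
  have h' := h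
  rw [← Category.assoc, ← Category.assoc, ofHom_comp_eq, ofHom_comp_eq] at h
  set ψ := (algebraMap R K).comp χ with hψ
  set ψ' := (algebraMap R K).comp χ' with hψ'
  -- the point lies in `V`
  let p : Spec (CommRingCat.of K) := IsLocalRing.closedPoint K
  have hp : j0 k (Spec.map (CommRingCat.ofHom ψ) p) = j1 k (Spec.map (CommRingCat.ofHom ψ') p) := by
    rw [← Scheme.Hom.comp_apply, ← Scheme.Hom.comp_apply, h]
  obtain ⟨z, hz, -⟩ := j0_eq_j1 k _ _ hp
  have hne : ψ (bx k) ≠ 0 := by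
    intro h0
    have h1 : bx k ∈ (Spec.map (CommRingCat.ofHom ψ) p : PrimeSpectrum (B k)).asIdeal := by
      change ψ (bx k) ∈ p.asIdeal
      rw [h0]
      exact Ideal.zero_mem _
    rw [← hz] at h1
    have h2 : algebraMap (B k) (Bx k) (bx k) ∈ (z : PrimeSpectrum (Bx k)).asIdeal := h1
    have h3 : (1 : Bx k) ∈ (z : PrimeSpectrum (Bx k)).asIdeal := by
      rw [← x_ux k]
      exact Ideal.mul_mem_right _ _ h2
    exact z.isPrime.ne_top ((Ideal.eq_top_iff_one _).2 h3)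
  have hu : IsUnit (ψ (bx k)) := isUnit_iff_ne_zero.2 hne
  have h4 : sw ψ hu = ψ' := by
    rw [swap0 ψ hu, cancel_mono] at h
    exact ofHom_inj h
  have h5 : χ (bx k) * χ' (bx k) = -1 := by
    apply hinj
    rw [map_mul, map_neg, map_one]
    have := sw_bx ψ hu
    rw [h4] at this
    exact this
  have hu' : IsUnit (χ (bx k)) := by
    refine IsUnit.of_mul_eq_one (-χ' (bx k)) ?_
    rw [mul_neg, h5, neg_neg]
  rw [swap0 χ hu'] at h' ⊢
  rw [same_chart (j1 k) _ _ h']

theorem unique_lift (l l' : Spec (CommRingCat.of R) ⟶ El k)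
    (h : Spec.map (CommRingCat.ofHom (algebraMap R K)) ≫ l =
      Spec.map (CommRingCat.ofHom (algebraMap R K)) ≫ l') : l = l' := by
  obtain ⟨χ, hχ⟩ := local_lift l
  obtain ⟨χ', hχ'⟩ := local_lift l'
  rcases hχ with rfl | rfl <;> rcases hχ' with rfl | rfl
  · rw [same_chart (j0 k) _ _ h]
  · exact diff_chart χ χ' h
  · exact (diff_chart χ' χ h.symm).symm
  · rw [same_chart (j1 k) _ _ h]

end crit

/-- the valuative criterion -/
theorem valuative (k : Type) [Field k] : ValuativeCriterion (sE k) := by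
  rw [ValuativeCriterion.iff]
  constructor
  · intro S
    obtain ⟨ψ, hψ⟩ := local_lift S.i₁
    obtain ⟨l, h1, h2⟩ : ∃ l : Spec (CommRingCat.of S.R) ⟶ El k,
        Spec.map (CommRingCat.ofHom (algebraMap S.R S.K)) ≫ l = S.i₁ ∧ l ≫ sE k = S.i₂ := by
      rcases hψ with hψ | hψ
      · exact exists_lift' (j0 k) (j1 k) (j0_sE k) (j1_sE k) swap0 S.i₁ S.i₂ S.commSq.w ψ hψ
      · exact exists_lift' (j1 k) (j0 k) (j1_sE k) (j0_sE k) swap1 S.i₁ S.i₂ S.commSq.w ψ hψ
    exact ⟨⟨⟨l, h1, h2⟩⟩⟩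
  · intro S
    constructor
    rintro ⟨l, h1, h2⟩ ⟨l', h1', h2'⟩
    have := unique_lift l l' (h1.trans h1'.symm)
    subst this
    rfl

/-- Module PROP. -/
theorem prop (h : InteStatement) : PropStatement := by
  intro k _
  obtain ⟨h1, h2, h3⟩ := h k
  haveI : IsLocallyNoetherian (El k) := LocallyOfFiniteType.isLocallyNoetherian (sE k)
  haveI : QuasiSeparated (sE k) := inferInstance
  exact IsProper.of_valuativeCriterion (sE k) (valuative k)

end Pool.Agent.Ell.H21
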